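import Mathlib

/-!
Minkowski space `ℝ × ℝ³`, hyperbolic space and families of planes which do not cross, for the
wandering continuum theorem (problem MP_90715c_gt).
-/

open Set Filter Topology

namespace Pool.Agent.H90.WC

/-- Minkowski space. -/
abbrev V := ℝ × EuclideanSpace ℝ (Fin 3)

/-- The Minkowski form. -/
noncomputable def D (u v : V) : ℝ := u.1 * v.1 - inner ℝ u.2 v.2

/-- Hyperbolic space. -/
def H3 : Set V := {X | D X X = 1 ∧ 0 < X.1}

/-- The closed future cone. -/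
def Cp : Set V := {X | ‖X.2‖ ≤ X.1}

/-- A group of isometries of hyperbolic space with compact quotient. -/
structure Act {Γ : Type*} [Group Γ] (ρ : Γ →* Module.End ℝ V) : Prop where
  form : ∀ γ u v, D (ρ γ u) (ρ γ v) = D u v
  pos : ∀ γ, ∀ X ∈ H3, ρ γ X ∈ H3
  coc : ∃ R : ℝ, ∀ X ∈ H3, ∃ γ, ‖ρ γ X‖ ≤ R

/-- A closed invariant family of planes (given by their normal vectors) which do not cross. -/
structure Fam {Γ : Type*} [Group Γ] (ρ : Γ →* Module.End ℝ V) (Q : Set V) : Prop where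
  closed : IsClosed Q
  ne : Q.Nonempty
  neg : ∀ q ∈ Q, -q ∈ Q
  inv : ∀ γ, ∀ q ∈ Q, ρ γ q ∈ Q
  unit : ∀ q ∈ Q, D q q = -1
  nc : ∀ q ∈ Q, ∀ q' ∈ Q, 1 ≤ |D q q'|

end Pool.Agent.H90.WC
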