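import Pool.Agent.H90.WC.Inv
import Pool.Agent.H13.WC.Cut

/-!
The set `Z` is closed and invariant (problem MP_90715c_gt).
-/

open Matrix Set Filter Topology

namespace Pool.Agent.H90.WC

variable {Γ : Subgroup G} {K : Set (OnePoint ℂ)}

theorem Z_left {q γ : G} (hq : q ∈ Z Γ K) (hγ : γ ∈ Γ) : γ * q ∈ Z Γ K := by
  intro T hT ε hε F hF
  obtain ⟨δ, hδ, hδF, κ, hκ, hK⟩ := hq T hT ε hε ((fun x => γ⁻¹ * x) '' F) (hF.image _)
  refine ⟨γ * δ, Γ.mul_mem hγ hδ, ?_, κ, hκ, ?_⟩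
  · intro h
    exact hδF ⟨γ * δ, h, by simp⟩
  · intro w hw
    have : (γ * δ)⁻¹ * (γ * q) = δ⁻¹ * q := by group
    rw [this]
    exact hK w hw

/-- The criterion for `q ∈ Z` by approximation. -/
theorem Z_of_approx {q : G} (H : ∀ T > (0 : ℝ), ∀ ε > (0 : ℝ), ∀ F : Set G, F.Finite →
    ∀ U ∈ 𝓝 (1 : G), ∃ γ ∈ Γ, γ ∉ F ∧ ∃ h ∈ U, ∃ κ : Set ℂ, Crossing T ε κ ∧
      ∀ w ∈ κ, act (γ⁻¹ * (q * h)) (w : OnePoint ℂ) ∈ K) : q ∈ Z Γ K := by
  intro T hT ε hε F hF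
  set δ : ℝ := min (ε / 2) 1 with hδ
  have hδ0 : 0 < δ := lt_min (by linarith) one_pos
  have hδ1 : δ ≤ 1 := min_le_right _ _
  have hδε : δ ≤ ε / 2 := min_le_left _ _
  obtain ⟨γ, hγ, hγF, h, hU, κ, hκ, hK⟩ := H (T + 1) (by linarith) (ε / 2) (by linarith) F hF _
    (mob_near_one (T + 1 + ε) hδ0)
  have hU' : ∀ w ∈ κ, h 1 0 * w + h 1 1 ≠ 0 ∧ ‖mob h w - w‖ ≤ δ := by
    intro w hw
    apply hU w
    calc ‖w‖ ≤ |w.re| + |w.im| := Complex.norm_le_abs_re_add_abs_im w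
      _ ≤ T + 1 + ε / 2 := add_le_add (hκ.re_le w hw) (hκ.im_le w hw)
      _ ≤ T + 1 + ε := by linarith
  have hcont : ContinuousOn (mob h) κ := by
    unfold mob
    apply ContinuousOn.div
    · fun_prop
    · fun_prop
    · intro w hw
      exact (hU' w hw).1
  have hre : ∀ w ∈ κ, |(mob h w).re - w.re| ≤ δ := by
    intro w hw
    rw [← Complex.sub_re]
    exact (Complex.abs_re_le_norm _).trans (hU' w hw).2
  have him : ∀ w ∈ κ, |(mob h w).im - w.im| ≤ δ := by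
    intro w hw
    rw [← Complex.sub_im]
    exact (Complex.abs_im_le_norm _).trans (hU' w hw).2
  obtain ⟨κ', hκ's, hκ'⟩ := crossing_of_connected (κ := mob h '' κ) (T := T) (ε := ε)
    (hκ.cpt.image_of_continuousOn hcont) (hκ.conn.image _ hcont) hT
    (by
      obtain ⟨w, hw, hw1⟩ := hκ.left
      refine ⟨_, ⟨w, hw, rfl⟩, ?_⟩
      have := abs_le.1 (hre w hw)
      linarith [this.2])
    (by
      obtain ⟨w, hw, hw1⟩ := hκ.right
      refine ⟨_, ⟨w, hw, rfl⟩, ?_⟩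
      have := abs_le.1 (hre w hw)
      linarith [this.1])
    (by
      rintro _ ⟨w, hw, rfl⟩ -
      have h1 := abs_le.1 (him w hw)
      have h2 := abs_le.1 (hκ.im_le w hw)
      rw [abs_le]
      constructor <;> linarith [h1.1, h1.2, h2.1, h2.2])
  refine ⟨γ, hγ, hγF, κ', hκ', ?_⟩
  intro w' hw'
  obtain ⟨w, hw, rfl⟩ := hκ's hw'
  have := hK w hw
  rw [← mul_assoc, act_mul, act_coe_of_ne (hU' w hw).1] at this
  exact this

theorem Z_closed : IsClosed (Z Γ K) := by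
  rw [← closure_subset_iff_isClosed]
  intro q hq
  apply Z_of_approx
  intro T hT ε hε F hF U hU
  have hc : Tendsto (fun x : G => q⁻¹ * x) (𝓝 q) (𝓝 1) := by
    have : Tendsto (fun x : G => q⁻¹ * x) (𝓝 q) (𝓝 (q⁻¹ * q)) :=
      (continuous_const.mul continuous_id).tendsto q
    rwa [inv_mul_cancel] at this
  obtain ⟨x, hxU, hxZ⟩ := mem_closure_iff_nhds.1 hq _ (hc hU)
  obtain ⟨γ, hγ, hγF, κ, hκ, hK⟩ := hxZ T hT ε hε F hF
  refine ⟨γ, hγ, hγF, q⁻¹ * x, hxU, κ, hκ, ?_⟩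
  rwa [mul_inv_cancel_left]

/-- Right invariance under the real affine maps. -/
theorem Z_right {q : G} (hq : q ∈ Z Γ K) (α β : ℝ) (hα : α ≠ 0) : q * bR α β hα ∈ Z Γ K := by
  intro T hT ε hε F hF
  have hα2 : 0 < α ^ 2 := by positivity
  obtain ⟨γ, hγ, hγF, κ, hκ, hK⟩ := hq (α ^ 2 * T + |α * β|) (by positivity) (α ^ 2 * ε)
    (by positivity) F hF
  -- the inverse affine map
  set f : ℂ → ℂ := fun w => (w - (α * β : ℝ)) / (α ^ 2 : ℝ) with hf
  have hfc : Continuous f := by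
    rw [hf]
    fun_prop
  have hre : ∀ w, (f w).re = (w.re - α * β) / α ^ 2 := by
    intro w
    rw [hf]
    simp only [Complex.div_ofReal_re, Complex.sub_re, Complex.ofReal_re]
  have him : ∀ w, (f w).im = w.im / α ^ 2 := by
    intro w
    rw [hf]
    simp only [Complex.div_ofReal_im, Complex.sub_im, Complex.ofReal_im, sub_zero]
  obtain ⟨κ', hκ's, hκ'⟩ := crossing_of_connected (κ := f '' κ) (T := T) (ε := ε)
    (hκ.cpt.image hfc) (hκ.conn.image _ hfc.continuousOn) hT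
    (by
      obtain ⟨w, hw, hw1⟩ := hκ.left
      refine ⟨_, ⟨w, hw, rfl⟩, ?_⟩
      rw [hre, hw1, div_le_iff₀ hα2]
      linarith [neg_abs_le (α * β)])
    (by
      obtain ⟨w, hw, hw1⟩ := hκ.right
      refine ⟨_, ⟨w, hw, rfl⟩, ?_⟩
      rw [hre, hw1, le_div_iff₀ hα2]
      linarith [le_abs_self (α * β)])
    (by
      rintro _ ⟨w, hw, rfl⟩ -
      rw [him, abs_div, abs_of_pos hα2, div_le_iff₀ hα2]
      linarith [hκ.im_le w hw])
  refine ⟨γ, hγ, hγF, κ', hκ', ?_⟩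
  intro w' hw'
  obtain ⟨w, hw, rfl⟩ := hκ's hw'
  have h1 : act (bR α β hα) ((f w : ℂ) : OnePoint ℂ) = (w : OnePoint ℂ) := by
    have hαc : (α : ℂ) ≠ 0 := by exact_mod_cast hα
    rw [act_coe_of_ne]
    · congr 1
      unfold mob
      simp only [bR_00, bR_01, bR_10, bR_11, hf]
      rw [zero_mul, zero_add, div_inv_eq_mul]
      push_cast
      field_simp
      ring
    · simp [hα]
  rw [← mul_assoc, act_mul, h1]
  exact hK w hw

/-- The rotation `z ↦ -z`. -/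
noncomputable def rot : G := ⟨!![Complex.I, 0; 0, -Complex.I], by
  rw [Matrix.det_fin_two_of]; simp⟩

@[simp] lemma rot_00 : rot 0 0 = Complex.I := rfl
@[simp] lemma rot_01 : rot 0 1 = 0 := rfl
@[simp] lemma rot_10 : rot 1 0 = 0 := rfl
@[simp] lemma rot_11 : rot 1 1 = -Complex.I := rfl

lemma act_rot (z : ℂ) : act rot (z : OnePoint ℂ) = ((-z : ℂ) : OnePoint ℂ) := by
  rw [act_coe_of_ne]
  · congr 1
    unfold mob
    simp only [rot_00, rot_01, rot_10, rot_11]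
    rw [zero_mul, zero_add, add_zero, div_eq_iff (by simp)]
    ring
  · simp

theorem Z_rot {q : G} (hq : q ∈ Z Γ K) : q * rot ∈ Z Γ K := by
  intro T hT ε hε F hF
  obtain ⟨γ, hγ, hγF, κ, hκ, hK⟩ := hq T hT ε hε F hF
  refine ⟨γ, hγ, hγF, (fun w => -w) '' κ, ⟨?_, ?_, ?_, ?_, ?_, ?_⟩, ?_⟩
  · exact hκ.cpt.image continuous_neg
  · exact hκ.conn.image _ continuous_neg.continuousOn
  · rintro _ ⟨w, hw, rfl⟩
    simpa using hκ.re_le w hw
  · rintro _ ⟨w, hw, rfl⟩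
    simpa using hκ.im_le w hw
  · obtain ⟨w, hw, hw1⟩ := hκ.right
    exact ⟨_, ⟨w, hw, rfl⟩, by simp [hw1]⟩
  · obtain ⟨w, hw, hw1⟩ := hκ.left
    exact ⟨_, ⟨w, hw, rfl⟩, by simp [hw1]⟩
  · rintro _ ⟨w, hw, rfl⟩
    rw [← mul_assoc, act_mul, act_rot, neg_neg]
    exact hK w hw

end Pool.Agent.H90.WC
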