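import Pool.Agent.H73.WC.E3
import Pool.Agent.H90.WC.Zset
import Pool.Agent.H99.WC.C2
import Pool.Agent.H97.WC.D
import Pool.Agent.H97.WC.E1
import Pool.Agent.H59.WC.Cocompact
import Pool.Agent.H70.WC.CircleOf
import Pool.Agent.H50.WC.Hyperb
import Pool.Agent.H20.WC.ActCont
import Pool.Agent.H13.WC.Thin

/-!
The set `Z` is empty (problem MP_90715c_gt).
-/

open Matrix Set Filter Topology

namespace Pool.Agent.H90.WC

variable {Γ : Subgroup G} {K : Set (OnePoint ℂ)}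

/-- Real elements preserve the upper half plane. -/
lemma IsReal.act_im {r : G} (hr : IsReal r) {u : ℂ} (hu : u.im ≠ 0) :
    ∃ c : ℝ, 0 < c ∧ ∃ w : ℂ, act r (u : OnePoint ℂ) = (w : OnePoint ℂ) ∧ w.im = c * u.im := by
  have hd := hr.det
  have hr' := hr
  rw [isReal_iff] at hr
  obtain ⟨r0, r1, r2, r3⟩ := hr
  have hden : r 1 0 * u + r 1 1 ≠ 0 := by
    intro h
    have him := congrArg Complex.im h
    have hre := congrArg Complex.re h
    simp only [Complex.add_im, Complex.mul_im, r2, r3, Complex.zero_im, zero_mul, add_zero] at him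
    simp only [Complex.add_re, Complex.mul_re, r2, Complex.zero_re, zero_mul, sub_zero] at hre
    have h10 : (r 1 0).re = 0 := by
      rcases mul_eq_zero.1 him with h | h
      · exact h
      · exact absurd h hu
    have h11 : (r 1 1).re = 0 := by
      rw [h10, zero_mul, zero_add] at hre
      exact hre
    rw [h10, h11] at hd
    simp at hd
  have hn : 0 < Complex.normSq (r 1 0 * u + r 1 1) := Complex.normSq_pos.2 hden
  refine ⟨(Complex.normSq (r 1 0 * u + r 1 1))⁻¹, inv_pos.2 hn, mob r u, act_coe_of_ne hden, ?_⟩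
  unfold mob
  rw [Complex.div_im]
  rw [← sub_div, inv_mul_eq_div]
  congr 1
  simp only [Complex.add_im, Complex.mul_im, Complex.add_re, Complex.mul_re, r0, r1, r2, r3,
    zero_mul, sub_zero, add_zero]
  linear_combination (u.im) * hd

theorem exists_circle (h : Hyp Γ K) {S : Set G} (hS : Inv Γ S)
    (hx : ∀ q ∈ S, ∀ q' ∈ S, 1 ≤ |Bf (q⁻¹ * q')|) :
    ∃ q ∈ S, ∃ C : Set G, IsCompact C ∧
      ∀ s : G, IsReal s → ∃ γ ∈ Γ, IsReal (q⁻¹ * γ * q) ∧ q⁻¹ * γ * q * s ∈ C :=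
  exists_circle_of h.coc hS hx (fun hA hF hm => not_foliation hA hF hm)
    (fun hA hF hg hp => exists_cocompact_plane hA hF hg hp)
    (fun γ hγ ht => no_parabolic h hγ ht) (fun E hE hs hi hne => minimal h hE hs hi hne)

theorem exists_hyperbolic (h : Hyp Γ K) {S : Set G} {q : G} (hq : q ∈ S)
    (hC : ∃ C : Set G, IsCompact C ∧
      ∀ s : G, IsReal s → ∃ γ ∈ Γ, IsReal (q⁻¹ * γ * q) ∧ q⁻¹ * γ * q * s ∈ C) :
    ∃ r : G, IsReal r ∧ ∃ g ∈ Γ, ∃ l : ℝ, 1 < l ∧
      (r⁻¹ * q⁻¹ * g * q * r) 1 0 = 0 ∧ (r⁻¹ * q⁻¹ * g * q * r) 0 1 = 0 ∧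
      ((r⁻¹ * q⁻¹ * g * q * r) 0 0) ^ 2 = (l : ℂ) ∧
      ∃ s : G, IsReal s ∧ q * r * s ∈ S ∧ s 0 0 ≠ 0 ∧ s 1 0 ≠ 0 :=
  exists_hyperbolic0 (fun g hg => no_parabolic h hg) hq hC

theorem Z_empty (h : Hyp Γ K) : Z Γ K = ∅ := by
  by_contra hne
  rw [← Ne, ← nonempty_iff_ne_empty] at hne
  have hI : Inv Γ (Z Γ K) := ⟨Z_closed, hne, fun γ hγ q hq => Z_left hq hγ,
    fun q hq α β hα => Z_right hq α β hα⟩
  obtain ⟨q0, hq0, hq0'⟩ := exists_noncross h.coc hI
    (fun q hq q' hq' hB => cross_form h hq hq' hB)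
  have hS : Inv Γ {q | q ∈ Z Γ K ∧ ∀ q' ∈ Z Γ K, 1 ≤ |Bf (q⁻¹ * q')|} := by
    refine ⟨?_, ⟨q0, hq0, hq0'⟩, ?_, ?_⟩
    · have : {q | q ∈ Z Γ K ∧ ∀ q' ∈ Z Γ K, 1 ≤ |Bf (q⁻¹ * q')|} =
          Z Γ K ∩ ⋂ q' ∈ Z Γ K, {q : G | 1 ≤ |Bf (q⁻¹ * q')|} := by
        ext q
        simp
      rw [this]
      refine Z_closed.inter (isClosed_biInter fun q' _ => ?_)
      exact isClosed_le continuous_const
        (continuous_Bf.comp (continuous_inv.mul continuous_const)).abs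
    · rintro γ hγ q ⟨hq, hq'⟩
      refine ⟨Z_left hq hγ, fun q' hq'Z => ?_⟩
      have := hq' (γ⁻¹ * q') (Z_left hq'Z (Γ.inv_mem hγ))
      rwa [_root_.mul_inv_rev, mul_assoc]
    · rintro q ⟨hq, hq'⟩ α β hα
      refine ⟨Z_right hq α β hα, fun q' hq'Z => ?_⟩
      rw [_root_.mul_inv_rev, mul_assoc, Bf_real_left (isReal_bR α β hα).inv]
      exact hq' q' hq'Z
  obtain ⟨q, hq, hC⟩ := exists_circle h hS (fun q hq q' hq' => hq.2 q' hq'.1)
  obtain ⟨r, hr, g, hg, l, hl, h10, h01, h00, s, hs, hqs, hs0, hs1⟩ :=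
    exists_hyperbolic h hq hC
  have hc : (q * r)⁻¹ * g * (q * r) = r⁻¹ * q⁻¹ * g * q * r := by group
  have hreal : IsReal (r⁻¹ * q⁻¹ * g * q * r) := by
    have hdet := det_eq (r⁻¹ * q⁻¹ * g * q * r)
    rw [h10, mul_zero, sub_zero] at hdet
    have h0im : ((r⁻¹ * q⁻¹ * g * q * r) 0 0).im = 0 := by
      have hre := congrArg Complex.re h00
      have him := congrArg Complex.im h00
      simp only [pow_two, Complex.mul_re, Complex.mul_im, Complex.ofReal_re,
        Complex.ofReal_im] at hre him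
      by_contra hx
      have h2 : ((r⁻¹ * q⁻¹ * g * q * r) 0 0).re = 0 := by
        have : ((r⁻¹ * q⁻¹ * g * q * r) 0 0).re * ((r⁻¹ * q⁻¹ * g * q * r) 0 0).im = 0 := by
          linarith
        rcases mul_eq_zero.1 this with h | h
        · exact h
        · exact absurd h hx
      rw [h2] at hre
      have : 0 ≤ ((r⁻¹ * q⁻¹ * g * q * r) 0 0).im * ((r⁻¹ * q⁻¹ * g * q * r) 0 0).im :=
        mul_self_nonneg _
      linarith
    rw [isReal_iff]
    refine ⟨h0im, by rw [h01]; simp, by rw [h10]; simp, ?_⟩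
    have him := congrArg Complex.im hdet
    have hre := congrArg Complex.re hdet
    simp only [Complex.mul_im, Complex.mul_re, h0im, Complex.one_im, Complex.one_re, zero_mul,
      sub_zero, add_zero] at him hre
    rcases mul_eq_zero.1 him with h | h
    · rw [h] at hre
      simp at hre
    · exact h
  have hg1 : g ≠ 1 := by
    rintro rfl
    have : r⁻¹ * q⁻¹ * 1 * q * r = 1 := by group
    rw [this] at h00
    have h := congrArg Complex.re h00
    simp at h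
    linarith
  have hgm : g ≠ -1 := by
    rintro rfl
    have : r⁻¹ * q⁻¹ * (-1) * q * r = -1 := by
      simp [mul_assoc]
    rw [this] at h00
    have h := congrArg Complex.re h00
    simp at h
    linarith
  -- the real element of the circle of `q`
  set t : G := q⁻¹ * g * q with ht
  have htr : IsReal t := by
    have : t = r * (r⁻¹ * q⁻¹ * g * q * r) * r⁻¹ := by
      rw [ht]; group
    rw [this]
    exact (hr.mul hreal).mul hr.inv
  refine thin_contra (q := q * r) (s := s) h hg hl (by rw [hc]; exact h10)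
    (by rw [hc]; exact h01) (by rw [hc]; exact h00) hs hqs.1 hs0 hs1 ?_
  rintro γ hγ ⟨⟨u, hu, huK⟩, ⟨v, hv, hvK⟩⟩
  rw [← mul_assoc, act_mul] at huK hvK
  obtain ⟨c, hc0, u', hu', hu'i⟩ := hr.act_im hu.ne'
  obtain ⟨d, hd0, v', hv', hv'i⟩ := hr.act_im hv.ne
  rw [hu'] at huK
  rw [hv'] at hvK
  have hu'p : 0 < u'.im := by rw [hu'i]; positivity
  have hv'p : v'.im < 0 := by rw [hv'i]; exact mul_neg_of_pos_of_neg hd0 hv
  have hp := mark_mem h hq.1 hγ ⟨u', hu'p, huK⟩ ⟨v', hv'p, hvK⟩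
  obtain ⟨c2, hc20, u2, hu2, hu2i⟩ := htr.inv.act_im hu'p.ne'
  obtain ⟨d2, hd20, v2, hv2, hv2i⟩ := htr.inv.act_im hv'p.ne
  have hgq : g * q = q * t := by rw [ht]; group
  have hp' := mark_mem h (Z_left hq.1 hg) hγ
    ⟨u2, by rw [hu2i]; positivity, by
      rw [hgq, ← mul_assoc, act_mul, ← hu2, act_act_inv]; exact huK⟩
    ⟨v2, by rw [hv2i]; exact mul_neg_of_pos_of_neg hd20 hv'p, by
      rw [hgq, ← mul_assoc, act_mul, ← hv2, act_act_inv]; exact hvK⟩
  refine h.wand (γ⁻¹ * g * γ) (Γ.mul_mem (Γ.mul_mem (Γ.inv_mem hγ) hg) hγ) ?_ ?_ _ hp ?_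
  · intro e
    apply hg1
    have : g = γ * (γ⁻¹ * g * γ) * γ⁻¹ := by group
    rw [this, e]; group
  · intro e
    apply hgm
    have : g = γ * (γ⁻¹ * g * γ) * γ⁻¹ := by group
    rw [this, e]
    simp
  · rw [← act_mul]
    have : γ⁻¹ * g * γ * (γ⁻¹ * q) = γ⁻¹ * (g * q) := by group
    rw [this]
    exact hp'

end Pool.Agent.H90.WC
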