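import Pool.Agent.H90.WC.Defs

/-!
Rules for the Moebius action of `SL(2, ℂ)` on the Riemann sphere (problem MP_90715c_gt).
-/

open Matrix Set Filter Topology

namespace Pool.Agent.H90.WC

/-! ### The action -/

@[simp] lemma act_one (x : OnePoint ℂ) : act 1 x = x := by
  simp [act]

lemma act_mul (g h : G) (x : OnePoint ℂ) : act (g * h) x = act g (act h x) := by
  simp [act, mul_smul]

@[simp] lemma act_inv_act (g : G) (x : OnePoint ℂ) : act g⁻¹ (act g x) = x := by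
  rw [← act_mul, inv_mul_cancel, act_one]

@[simp] lemma act_act_inv (g : G) (x : OnePoint ℂ) : act g (act g⁻¹ x) = x := by
  rw [← act_mul, mul_inv_cancel, act_one]

/-- The value of the Moebius map at a finite point. -/
noncomputable def mob (g : G) (z : ℂ) : ℂ := (g 0 0 * z + g 0 1) / (g 1 0 * z + g 1 1)

lemma act_coe (g : G) (z : ℂ) :
    act g (z : OnePoint ℂ) =
      if g 1 0 * z + g 1 1 = 0 then OnePoint.infty else ((mob g z : ℂ) : OnePoint ℂ) := by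
  unfold act mob
  rw [OnePoint.smul_some_eq_ite]
  rfl

lemma act_coe_of_ne {g : G} {z : ℂ} (h : g 1 0 * z + g 1 1 ≠ 0) :
    act g (z : OnePoint ℂ) = ((mob g z : ℂ) : OnePoint ℂ) := by
  rw [act_coe, if_neg h]

lemma act_coe_of_eq {g : G} {z : ℂ} (h : g 1 0 * z + g 1 1 = 0) :
    act g (z : OnePoint ℂ) = OnePoint.infty := by
  rw [act_coe, if_pos h]

lemma act_infty (g : G) :
    act g OnePoint.infty =
      if g 1 0 = 0 then OnePoint.infty else ((g 0 0 / g 1 0 : ℂ) : OnePoint ℂ) := by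
  unfold act
  rw [OnePoint.smul_infty_eq_ite]
  rfl

lemma act_neg (g : G) (x : OnePoint ℂ) : act (-g) x = act g x := by
  induction x using OnePoint.rec with
  | infty =>
    rw [act_infty, act_infty]
    simp [neg_div_neg_eq]
  | coe z =>
    rw [act_coe, act_coe]
    have h : (-g : G) 1 0 * z + (-g : G) 1 1 = -(g 1 0 * z + g 1 1) := by
      simp; ring
    have h2 : mob (-g) z = mob g z := by
      unfold mob
      rw [h]
      have : (-g : G) 0 0 * z + (-g : G) 0 1 = -(g 0 0 * z + g 0 1) := by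
        simp; ring
      rw [this, neg_div_neg_eq]
    rw [h, h2]
    simp only [neg_eq_zero]

/-! ### Entries -/

lemma det_eq (g : G) : g 0 0 * g 1 1 - g 0 1 * g 1 0 = 1 := by
  have := g.2
  rw [Matrix.det_fin_two] at this
  exact this

lemma mul_00 (g h : G) : (g * h) 0 0 = g 0 0 * h 0 0 + g 0 1 * h 1 0 := by
  simp [Matrix.mul_apply, Fin.sum_univ_two]

lemma mul_01 (g h : G) : (g * h) 0 1 = g 0 0 * h 0 1 + g 0 1 * h 1 1 := by
  simp [Matrix.mul_apply, Fin.sum_univ_two]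

lemma mul_10 (g h : G) : (g * h) 1 0 = g 1 0 * h 0 0 + g 1 1 * h 1 0 := by
  simp [Matrix.mul_apply, Fin.sum_univ_two]

lemma mul_11 (g h : G) : (g * h) 1 1 = g 1 0 * h 0 1 + g 1 1 * h 1 1 := by
  simp [Matrix.mul_apply, Fin.sum_univ_two]

lemma inv_00 (g : G) : g⁻¹ 0 0 = g 1 1 := by
  simp [Matrix.SpecialLinearGroup.SL2_inv_expl]

lemma inv_01 (g : G) : g⁻¹ 0 1 = -g 0 1 := by
  simp [Matrix.SpecialLinearGroup.SL2_inv_expl]

lemma inv_10 (g : G) : g⁻¹ 1 0 = -g 1 0 := by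
  simp [Matrix.SpecialLinearGroup.SL2_inv_expl]

lemma inv_11 (g : G) : g⁻¹ 1 1 = g 0 0 := by
  simp [Matrix.SpecialLinearGroup.SL2_inv_expl]

lemma ext_G {g h : G} (h00 : g 0 0 = h 0 0) (h01 : g 0 1 = h 0 1) (h10 : g 1 0 = h 1 0)
    (h11 : g 1 1 = h 1 1) : g = h := by
  ext i j
  fin_cases i <;> fin_cases j <;> assumption

@[simp] lemma bR_00 (α β : ℝ) (hα : α ≠ 0) : bR α β hα 0 0 = α := rfl
@[simp] lemma bR_01 (α β : ℝ) (hα : α ≠ 0) : bR α β hα 0 1 = β := rfl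
@[simp] lemma bR_10 (α β : ℝ) (hα : α ≠ 0) : bR α β hα 1 0 = 0 := rfl
@[simp] lemma bR_11 (α β : ℝ) (hα : α ≠ 0) : bR α β hα 1 1 = (α : ℂ)⁻¹ := rfl

/-! ### Topology of the group -/

lemma continuous_entry (i j : Fin 2) : Continuous fun g : G => g i j := by
  have h : Continuous fun g : G => (g : Matrix (Fin 2) (Fin 2) ℂ) := continuous_subtype_val
  exact (continuous_apply j).comp ((continuous_apply i).comp h)

lemma tendsto_iff {X : Type*} {l : Filter X} {f : X → G} {g : G} :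
    Tendsto f l (𝓝 g) ↔ ∀ i j, Tendsto (fun x => f x i j) l (𝓝 (g i j)) := by
  constructor
  · intro h i j
    exact ((continuous_entry i j).tendsto g).comp h
  · intro h
    refine (Matrix.SpecialLinearGroup.isClosedEmbedding_val (n := Fin 2)
      (R := ℂ)).isInducing.tendsto_nhds_iff.2 ?_
    exact tendsto_pi_nhds.2 fun i => tendsto_pi_nhds.2 fun j => h i j

/-- Near the identity, Moebius maps move the points of a bounded set very little. -/
lemma mob_near_one (R : ℝ) {δ : ℝ} (hδ : 0 < δ) :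
    ∀ᶠ h in 𝓝 (1 : G), ∀ w : ℂ, ‖w‖ ≤ R → h 1 0 * w + h 1 1 ≠ 0 ∧ ‖mob h w - w‖ ≤ δ := by
  have hc : ∀ i j, Tendsto (fun h : G => h i j) (𝓝 1) (𝓝 ((1 : G) i j)) := fun i j =>
    (continuous_entry i j).tendsto 1
  have h00 := hc 0 0
  have h01 := hc 0 1
  have h10 := hc 1 0
  have h11 := hc 1 1
  simp only [Matrix.SpecialLinearGroup.coe_one, Matrix.one_apply_eq, ne_eq, zero_ne_one,
    not_false_eq_true, Matrix.one_apply_ne, one_ne_zero] at h00 h01 h10 h11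
  set R' : ℝ := max R 0 with hR'
  have hR0 : 0 ≤ R' := le_max_right _ _
  -- the sum of the deviations
  have hs : Tendsto (fun h : G => ‖h 0 0 - 1‖ + ‖h 0 1‖ + ‖h 1 0‖ + ‖h 1 1 - 1‖) (𝓝 1)
      (𝓝 0) := by
    have e : (0 : ℝ) = ‖(1 : ℂ) - 1‖ + ‖(0 : ℂ)‖ + ‖(0 : ℂ)‖ + ‖(1 : ℂ) - 1‖ := by simp
    rw [e]
    exact (((h00.sub_const 1).norm.add h01.norm).add h10.norm).add (h11.sub_const 1).norm
  set η : ℝ := min (1 / (2 * (R' + 1))) (δ / (4 * (R' + 1) ^ 2)) with hη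
  have hη0 : 0 < η := by
    apply lt_min <;> positivity
  filter_upwards [hs.eventually (gt_mem_nhds hη0)] with h hh w hw
  have hwR : ‖w‖ ≤ R' := hw.trans (le_max_left _ _)
  have n0 := norm_nonneg (h 0 0 - 1)
  have n1 := norm_nonneg (h 0 1)
  have n2 := norm_nonneg (h 1 0)
  have n3 := norm_nonneg (h 1 1 - 1)
  have a0 : ‖h 0 0 - 1‖ ≤ η := by linarith
  have a1 : ‖h 0 1‖ ≤ η := by linarith
  have a2 : ‖h 1 0‖ ≤ η := by linarith
  have a3 : ‖h 1 1 - 1‖ ≤ η := by linarith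
  have hη1 : η * (R' + 1) ≤ 1 / 2 := by
    have : η ≤ 1 / (2 * (R' + 1)) := min_le_left _ _
    calc η * (R' + 1) ≤ 1 / (2 * (R' + 1)) * (R' + 1) := by gcongr
      _ = 1 / 2 := by field_simp
  have hη2 : η * (4 * (R' + 1) ^ 2) ≤ δ := by
    have : η ≤ δ / (4 * (R' + 1) ^ 2) := min_le_right _ _
    calc η * (4 * (R' + 1) ^ 2) ≤ δ / (4 * (R' + 1) ^ 2) * (4 * (R' + 1) ^ 2) := by gcongr
      _ = δ := by field_simp
  have hden : ‖h 1 0 * w + h 1 1 - 1‖ ≤ 1 / 2 := by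
    calc ‖h 1 0 * w + h 1 1 - 1‖ = ‖h 1 0 * w + (h 1 1 - 1)‖ := by ring_nf
      _ ≤ ‖h 1 0‖ * ‖w‖ + ‖h 1 1 - 1‖ := by
        refine (norm_add_le _ _).trans ?_
        rw [norm_mul]
      _ ≤ η * R' + η := by gcongr
      _ = η * (R' + 1) := by ring
      _ ≤ 1 / 2 := hη1
  have hden2 : 1 / 2 ≤ ‖h 1 0 * w + h 1 1‖ := by
    have := norm_sub_norm_le (1 : ℂ) (h 1 0 * w + h 1 1)
    rw [norm_one, norm_sub_rev] at this
    linarith
  have hne : h 1 0 * w + h 1 1 ≠ 0 := by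
    intro h0
    rw [h0, norm_zero] at hden2
    norm_num at hden2
  refine ⟨hne, ?_⟩
  have e : mob h w - w = ((h 0 0 - 1) * w + h 0 1 - h 1 0 * w * w - (h 1 1 - 1) * w)
      / (h 1 0 * w + h 1 1) := by
    unfold mob
    rw [eq_div_iff hne, sub_mul, div_mul_cancel₀ _ hne]
    ring
  rw [e, norm_div, div_le_iff₀ (by linarith)]
  have b : ‖(h 0 0 - 1) * w + h 0 1 - h 1 0 * w * w - (h 1 1 - 1) * w‖
      ≤ η * R' + η + η * R' * R' + η * R' := by
    refine (norm_sub_le _ _).trans ?_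
    refine add_le_add ((norm_sub_le _ _).trans (add_le_add ((norm_add_le _ _).trans ?_) ?_)) ?_
    · rw [norm_mul]; gcongr
    · rw [norm_mul, norm_mul]; gcongr
    · rw [norm_mul]; gcongr
  calc ‖(h 0 0 - 1) * w + h 0 1 - h 1 0 * w * w - (h 1 1 - 1) * w‖
      ≤ η * R' + η + η * R' * R' + η * R' := b
    _ ≤ η * (2 * (R' + 1) ^ 2) := by
        have m1 := mul_nonneg hη0.le hR0
        have m2 := mul_nonneg m1 hR0
        nlinarith
    _ ≤ δ * (1 / 2) := by nlinarith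
    _ ≤ δ * ‖h 1 0 * w + h 1 1‖ := by gcongr

/-- Two translates of `K` by elements which differ not only by a sign are disjoint. -/
lemma Hyp.disj {Γ : Subgroup G} {K : Set (OnePoint ℂ)} (h : Hyp Γ K) {γ γ' : G} (hγ : γ ∈ Γ)
    (hγ' : γ' ∈ Γ) (h1 : γ' ≠ γ) (h2 : γ' ≠ -γ) {p : OnePoint ℂ} (hp : act γ⁻¹ p ∈ K)
    (hp' : act γ'⁻¹ p ∈ K) : False := by
  refine h.wand (γ⁻¹ * γ') (Γ.mul_mem (Γ.inv_mem hγ) hγ') ?_ ?_ _ hp' ?_
  · intro e
    exact h1 (by rw [inv_mul_eq_one] at e; exact e.symm)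
  · intro e
    apply h2
    have : γ' = γ * (-1) := by rw [← e]; group
    rw [this]; simp
  · rw [← act_mul, mul_assoc, mul_inv_cancel, mul_one]
    exact hp

end Pool.Agent.H90.WC
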