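import Pool.Agent.H90.WC.Basic

/-!
The pairing `Bf` is invariant under real matrices on both sides (problem MP_90715c_gt).
-/

open Matrix Set Filter Topology

namespace Pool.Agent.H90.WC

lemma IsReal.one : IsReal 1 := by
  intro i j
  fin_cases i <;> fin_cases j <;> simp

lemma isReal_iff {g : G} : IsReal g ↔
    (g 0 0).im = 0 ∧ (g 0 1).im = 0 ∧ (g 1 0).im = 0 ∧ (g 1 1).im = 0 := by
  constructor
  · intro h
    exact ⟨h 0 0, h 0 1, h 1 0, h 1 1⟩
  · rintro ⟨h0, h1, h2, h3⟩ i j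
    fin_cases i <;> fin_cases j <;> assumption

lemma IsReal.mul {g h : G} (hg : IsReal g) (hh : IsReal h) : IsReal (g * h) := by
  rw [isReal_iff] at hg hh ⊢
  obtain ⟨g0, g1, g2, g3⟩ := hg
  obtain ⟨h0, h1, h2, h3⟩ := hh
  simp only [mul_00, mul_01, mul_10, mul_11, Complex.add_im, Complex.mul_im, g0, g1, g2, g3, h0,
    h1, h2, h3]
  norm_num

lemma IsReal.inv {g : G} (hg : IsReal g) : IsReal g⁻¹ := by
  rw [isReal_iff] at hg ⊢
  obtain ⟨g0, g1, g2, g3⟩ := hg
  simp only [inv_00, inv_01, inv_10, inv_11, Complex.neg_im, g0, g1, g2, g3, neg_zero]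
  norm_num

lemma isReal_bR (α β : ℝ) (hα : α ≠ 0) : IsReal (bR α β hα) := by
  rw [isReal_iff]
  refine ⟨?_, ?_, ?_, ?_⟩
  · simp
  · simp
  · simp
  · rw [bR_11, ← Complex.ofReal_inv, Complex.ofReal_im]

/-- The determinant of a real matrix. -/
lemma IsReal.det {g : G} (hg : IsReal g) :
    (g 0 0).re * (g 1 1).re - (g 0 1).re * (g 1 0).re = 1 := by
  rw [isReal_iff] at hg
  obtain ⟨g0, g1, g2, g3⟩ := hg
  have := congrArg Complex.re (det_eq g)
  simp only [Complex.sub_re, Complex.mul_re, g0, g1, g2, g3, Complex.one_re] at this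
  linarith

lemma Bf_eq (g : G) : Bf g = (g 0 0).re * (g 1 1).re + (g 0 0).im * (g 1 1).im
    - (g 0 1).re * (g 1 0).re - (g 0 1).im * (g 1 0).im := by
  unfold Bf
  simp only [Complex.sub_re, Complex.mul_re, Complex.conj_re, Complex.conj_im]
  ring

lemma Bf_real_left {r : G} (hr : IsReal r) (g : G) : Bf (r * g) = Bf g := by
  have hd := hr.det
  rw [isReal_iff] at hr
  obtain ⟨r0, r1, r2, r3⟩ := hr
  rw [Bf_eq, Bf_eq]
  simp only [mul_00, mul_01, mul_10, mul_11, Complex.add_re, Complex.add_im, Complex.mul_re,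
    Complex.mul_im, r0, r1, r2, r3]
  linear_combination ((g 0 0).re * (g 1 1).re + (g 0 0).im * (g 1 1).im
    - (g 0 1).re * (g 1 0).re - (g 0 1).im * (g 1 0).im) * hd

lemma Bf_real_right {r : G} (hr : IsReal r) (g : G) : Bf (g * r) = Bf g := by
  have hd := hr.det
  rw [isReal_iff] at hr
  obtain ⟨r0, r1, r2, r3⟩ := hr
  rw [Bf_eq, Bf_eq]
  simp only [mul_00, mul_01, mul_10, mul_11, Complex.add_re, Complex.add_im, Complex.mul_re,
    Complex.mul_im, r0, r1, r2, r3]
  linear_combination ((g 0 0).re * (g 1 1).re + (g 0 0).im * (g 1 1).im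
    - (g 0 1).re * (g 1 0).re - (g 0 1).im * (g 1 0).im) * hd

lemma continuous_Bf : Continuous Bf := by
  have h : ∀ i j : Fin 2, Continuous fun g : G => g i j := continuous_entry
  have h00 := h 0 0
  have h01 := h 0 1
  have h10 := h 1 0
  have h11 := h 1 1
  unfold Bf
  exact Complex.continuous_re.comp (((Complex.continuous_conj.comp h00).mul h11).sub
    (h01.mul (Complex.continuous_conj.comp h10)))

lemma Bf_inv (g : G) : Bf g⁻¹ = Bf g := by
  rw [Bf_eq, Bf_eq]
  simp only [inv_00, inv_01, inv_10, inv_11, Complex.neg_re, Complex.neg_im]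
  ring

lemma Bf_one : Bf 1 = 1 := by
  rw [Bf_eq]
  simp

end Pool.Agent.H90.WC
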