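import Mathlib

/-!
Definitions for the wandering continuum theorem (problem MP_90715c_gt).
-/

open Matrix Set Filter Topology

namespace Pool.Agent.H90.WC

/-- The group `SL(2, ℂ)`. -/
abbrev G := Matrix.SpecialLinearGroup (Fin 2) ℂ

/-- The Moebius action of `SL(2, ℂ)` on the Riemann sphere. -/
noncomputable def act (g : G) (x : OnePoint ℂ) : OnePoint ℂ :=
  (Matrix.SpecialLinearGroup.toGL g : GL (Fin 2) ℂ) • x

/-- The assumptions in the form in which they are used: `Γ` is a discrete cocompact subgroup of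
`SL(2, ℂ)` and `K` is a continuum on the sphere which is disjoint from its translates. -/
structure Hyp (Γ : Subgroup G) (K : Set (OnePoint ℂ)) : Prop where
  disc : ∃ U : Set G, IsOpen U ∧ (1 : G) ∈ U ∧ ∀ g ∈ Γ, g ∈ U → g = 1
  coc : ∃ C : Set G, IsCompact C ∧ ∀ g : G, ∃ γ ∈ Γ, γ * g ∈ C
  cpt : IsCompact K
  conn : IsConnected K
  wand : ∀ g ∈ Γ, g ≠ 1 → g ≠ -1 → ∀ x ∈ K, act g x ∉ K

/-- A continuum which crosses the box `[-T, T] × [-ε, ε]` from the left to the right. -/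
structure Crossing (T ε : ℝ) (κ : Set ℂ) : Prop where
  cpt : IsCompact κ
  conn : IsPreconnected κ
  re_le : ∀ w ∈ κ, |w.re| ≤ T
  im_le : ∀ w ∈ κ, |w.im| ≤ ε
  left : ∃ w ∈ κ, w.re = -T
  right : ∃ w ∈ κ, w.re = T

/-- The set of all `q` such that translates of `K` contain thinner and thinner continua along
longer and longer parts of the circle `q(ℝ)`. -/
def Z (Γ : Subgroup G) (K : Set (OnePoint ℂ)) : Set G :=
  {q | ∀ T > (0 : ℝ), ∀ ε > (0 : ℝ), ∀ F : Set G, F.Finite → ∃ γ ∈ Γ, γ ∉ F ∧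
    ∃ κ : Set ℂ, Crossing T ε κ ∧ ∀ w ∈ κ, act (γ⁻¹ * q) (w : OnePoint ℂ) ∈ K}

/-- The pairing of the real circle with its image under `g`; the circles cross if and only if
its absolute value is less than `1`. -/
noncomputable def Bf (g : G) : ℝ :=
  ((starRingEnd ℂ) (g 0 0) * g 1 1 - g 0 1 * (starRingEnd ℂ) (g 1 0)).re

/-- `z ↦ α² z + α β`. -/
noncomputable def bR (α β : ℝ) (hα : α ≠ 0) : G :=
  ⟨!![(α : ℂ), (β : ℂ); 0, (α : ℂ)⁻¹], by
    rw [Matrix.det_fin_two_of]; simp [hα]⟩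

/-- A real matrix. -/
def IsReal (g : G) : Prop := ∀ i j, (g i j).im = 0

end Pool.Agent.H90.WC
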