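import Pool.Agent.H90.WC.Asm
import Pool.Agent.H20.WC.Main2
import Pool.Agent.H82.WC.OneLt
import Pool.Agent.H82.WC.Nonstr

/-!
The wandering continuum theorem (problem MP_90715c_gt).
-/

open Matrix Set Filter Topology

namespace Pool.Agent.H90.WC

theorem main {Γ : Subgroup G} {K : Set (OnePoint ℂ)} (h : Hyp Γ K) (hn : K.Nontrivial) :
    1 < dimH ((fun z : ℂ => (z : OnePoint ℂ)) ⁻¹' K) :=
  main_aux h (nonstraight h (Z_empty h)) one_lt_dimH hn

end Pool.Agent.H90.WC
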