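import Pool.Agent.H90.WC.BfReal

/-!
Invariant sets of frames (problem MP_90715c_gt).
-/

open Matrix Set Filter Topology

namespace Pool.Agent.H90.WC

/-- A closed set of frames, invariant under `Γ` on the left and under the real affine maps on
the right. -/
structure Inv (Γ : Subgroup G) (S : Set G) : Prop where
  closed : IsClosed S
  ne : S.Nonempty
  left : ∀ γ ∈ Γ, ∀ q ∈ S, γ * q ∈ S
  right : ∀ q ∈ S, ∀ (α β : ℝ) (hα : α ≠ 0), q * bR α β hα ∈ S

/-- The data of a crossing: the marked points are the crossing points. -/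
def CrossForm (g : G) : Prop := g 1 0 ≠ 0 ∧ (g 0 0 / g 1 0).im = 0 ∧ (g 1 1 / g 1 0).im = 0

end Pool.Agent.H90.WC
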